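import Pool.Agent.Y269.EL.Main

/-!
# A negative answer to Elliott's question on simple C*-algebras without finite projections

There is a unital separable simple C*-algebra in which every nonzero projection is infinite but
which is not purely infinite (the definitions are in `Pool/Agent/Y269/ElliottDef.lean`).

Construction: an inductive limit of algebras of strongly continuous functions of
`(t, u, v, g) ∈ [0,1] × X × X × 𝒢` with values in `B(H)`, even in the coordinates of the points
`u`, `v` of the infinite product `X` of spheres, such that `f(0, u, v, g) = c(u)` and
`f(1, u, v, g) = S₁ c(u) S₁* + S₂ g c(v) g* S₂*`; the homotopy makes the values of projections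
properly infinite, and a Borsuk-Ulam theorem for infinite products of spheres with a triangular
system of equations shows that the unit is not Cuntz below a certain nonzero positive element.
-/

set_option autoImplicit false

namespace Pool.Agent.Results.MP_3ff0ef_an.ElliottQuestion

open Pool.Agent.Y269.ElliottDef

/-- There is a unital separable simple C*-algebra in which every nonzero projection is infinite
but which is not purely infinite. -/
theorem result :
    ∃ (A : Type) (_ : CStarAlgebra A), TopologicalSpace.SeparableSpace A ∧ IsSimpleRing A ∧
      (∀ p : A, IsStarProjection p → p ≠ 0 → InfiniteProj p) ∧ ¬ PurelyInfinite A :=
  Pool.Agent.Y269.EL.elliott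

end Pool.Agent.Results.MP_3ff0ef_an.ElliottQuestion
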